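import Pool.Agent.Run7.h450.CE.Iface

set_option autoImplicit false

open Filter Topology

namespace Run7.h890.CE

open Run7.h450.CE

/-- selfadjoint with nonnegative spectrum -/
structure NN {B : Type} [CStarAlgebra B] (a : B) : Prop where
  sa : IsSelfAdjoint a
  nn : ∀ t ∈ spectrum ℝ a, 0 ≤ t

variable {B : Type} [CStarAlgebra B]

theorem nn_of_pos {a : B} (h : Pos a) : NN a := by
  obtain ⟨c, rfl⟩ := h
  exact ⟨IsSelfAdjoint.star_mul_self c, spectrum_star_mul_self_nonneg⟩

theorem norm_mul_cfc {a : B} (ha : NN a) {y : B} (hy : star y * y = a * a) {f : ℝ → ℝ}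
    (hf : Continuous f) {c : ℝ} (hc : 0 ≤ c) (hb : ∀ t ∈ spectrum ℝ a, |t * f t| ≤ c) :
    ‖y * cfc f a‖ ≤ c := by
  have hsa : star (cfc f a) = cfc f a := (cfc_predicate f a : IsSelfAdjoint (cfc f a)).star_eq
  have h1 : star (y * cfc f a) * (y * cfc f a) = cfc (fun t => f t * (t * t) * f t) a := by
    have hid : cfc (fun t : ℝ => t) a = a := cfc_id' ℝ a ha.sa
    have e1 : cfc (fun t : ℝ => f t * (t * t) * f t) a =
        cfc f a * (cfc (fun t : ℝ => t) a * cfc (fun t : ℝ => t) a) * cfc f a := by
      rw [← cfc_mul (fun t : ℝ => t) (fun t : ℝ => t) a continuous_id.continuousOn continuous_id.continuousOn,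
        ← cfc_mul f (fun t : ℝ => t * t) a hf.continuousOn (by fun_prop),
        ← cfc_mul (fun t => f t * (t * t)) f a (by fun_prop) hf.continuousOn]
    rw [e1, hid, star_mul, hsa, ← hy]
    simp only [mul_assoc]
  have h2 : ‖y * cfc f a‖ * ‖y * cfc f a‖ ≤ c * c := by
    rw [← CStarRing.norm_star_mul_self, h1]
    refine norm_cfc_le (mul_nonneg hc hc) fun t ht => ?_
    have h3 := hb t ht
    have h4 : f t * (t * t) * f t = (t * f t) * (t * f t) := by ring
    rw [h4, Real.norm_eq_abs, abs_mul]
    exact mul_le_mul h3 h3 (abs_nonneg _) hc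
  exact (mul_self_le_mul_self_iff (norm_nonneg _) hc).2 h2

/-- the numbers tending to zero -/
noncomputable def e (n : ℕ) : ℝ := 1 / ((n : ℝ) + 1)

theorem e_pos (n : ℕ) : 0 < e n := by unfold e; positivity

theorem e_anti {n m : ℕ} (h : n ≤ m) : e m ≤ e n := by
  unfold e
  apply one_div_le_one_div_of_le
  · positivity
  · have : (n : ℝ) ≤ m := by exact_mod_cast h
    linarith

theorem e_tendsto : Tendsto e atTop (𝓝 0) := tendsto_one_div_add_atTop_nhds_zero_nat

noncomputable def g (n : ℕ) (t : ℝ) : ℝ := (√(|t| + e n))⁻¹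

noncomputable def r (n : ℕ) (t : ℝ) : ℝ := (|t| + e n)⁻¹

theorem pos1 (n : ℕ) (t : ℝ) : 0 < |t| + e n := by
  have := e_pos n
  have := abs_nonneg t
  linarith

theorem g_cont (n : ℕ) : Continuous (g n) := by
  unfold g
  refine Continuous.inv₀ (by fun_prop) fun t => ?_
  exact (Real.sqrt_pos.2 (pos1 n t)).ne'

theorem r_cont (n : ℕ) : Continuous (r n) := by
  unfold r
  refine Continuous.inv₀ (by fun_prop) fun t => ?_
  exact (pos1 n t).ne'

theorem gg (n : ℕ) (t : ℝ) : g n t * g n t = r n t := by
  unfold g r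
  rw [← mul_inv, Real.mul_self_sqrt (pos1 n t).le]

theorem g_bound (n : ℕ) {t : ℝ} (ht : 0 ≤ t) : |t * g n t - √t| ≤ √(e n) := by
  unfold g
  rw [abs_of_nonneg ht]
  set s := √t with hs
  set q := √(t + e n) with hq
  have hs0 : 0 ≤ s := Real.sqrt_nonneg _
  have hq0 : 0 < q := Real.sqrt_pos.2 (by have := e_pos n; linarith)
  have hsq : s ≤ q := Real.sqrt_le_sqrt (by have := e_pos n; linarith)
  have hqe : q ≤ s + √(e n) := by
    rw [hq, hs]
    refine Real.sqrt_le_iff.2 ⟨by positivity, ?_⟩
    nlinarith [Real.sq_sqrt ht, Real.sq_sqrt (e_pos n).le, mul_nonneg (Real.sqrt_nonneg t) (Real.sqrt_nonneg (e n))]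
  have hts : t = s * s := (Real.mul_self_sqrt ht).symm
  have h1 : t * q⁻¹ - s = -(s * q⁻¹ * (q - s)) := by
    rw [hts]
    field_simp
    ring
  have h2 : s * q⁻¹ ≤ 1 := by
    rw [← div_eq_mul_inv, div_le_one hq0]
    exact hsq
  have h3 : 0 ≤ s * q⁻¹ := mul_nonneg hs0 (inv_nonneg.2 hq0.le)
  rw [h1, abs_neg, abs_of_nonneg (mul_nonneg h3 (by linarith))]
  calc s * q⁻¹ * (q - s) ≤ 1 * (q - s) := mul_le_mul_of_nonneg_right h2 (by linarith)
    _ ≤ √(e n) := by linarith

theorem exists_lim {a : B} (ha : NN a) {y : B} (hy : star y * y = a * a) :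
    ∃ x : B, Tendsto (fun n => y * cfc (g n) a) atTop (𝓝 x) := by
  refine cauchySeq_tendsto_of_complete ?_
  refine cauchySeq_of_le_tendsto_0 (fun n => 2 * √(e n)) (fun n m N hn hm => ?_) ?_
  · rw [dist_eq_norm, ← mul_sub, ← cfc_sub (g n) (g m) a (g_cont n).continuousOn (g_cont m).continuousOn]
    refine norm_mul_cfc ha hy ((g_cont n).sub (g_cont m)) (by positivity) fun t ht => ?_
    have ht0 := ha.nn t ht
    have h1 : t * (g n t - g m t) = (t * g n t - √t) - (t * g m t - √t) := by ring
    change |t * (g n t - g m t)| ≤ 2 * √(e N)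
    rw [h1]
    calc |(t * g n t - √t) - (t * g m t - √t)| ≤ |t * g n t - √t| + |t * g m t - √t| := abs_sub _ _
      _ ≤ √(e n) + √(e m) := add_le_add (g_bound n ht0) (g_bound m ht0)
      _ ≤ 2 * √(e N) := by
        have := Real.sqrt_le_sqrt (e_anti hn)
        have := Real.sqrt_le_sqrt (e_anti hm)
        linarith
  · have h1 : Tendsto (fun n => 2 * √(e n)) atTop (𝓝 (2 * √0)) :=
      ((Real.continuous_sqrt.tendsto 0).comp e_tendsto).const_mul 2
    simpa using h1

theorem tendsto_of_norm_le {f : ℕ → B} {x : B} (h : ∀ n, ‖f n - x‖ ≤ e n) :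
    Tendsto f atTop (𝓝 x) := by
  rw [tendsto_iff_norm_sub_tendsto_zero]
  exact squeeze_zero (fun n => norm_nonneg _) h e_tendsto

theorem sq_tendsto {a : B} (ha : NN a) {y : B} (hy : star y * y = a * a) :
    Tendsto (fun n => star (y * cfc (g n) a) * (y * cfc (g n) a)) atTop (𝓝 a) := by
  refine tendsto_of_norm_le fun n => ?_
  have hsa : star (cfc (g n) a) = cfc (g n) a :=
    (cfc_predicate (g n) a : IsSelfAdjoint (cfc (g n) a)).star_eq
  have hg := g_cont n
  have hid : cfc (fun t : ℝ => t) a = a := cfc_id' ℝ a ha.sa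
  have e1 : cfc (fun t : ℝ => g n t * (t * t) * g n t) a =
      cfc (g n) a * (cfc (fun t : ℝ => t) a * cfc (fun t : ℝ => t) a) * cfc (g n) a := by
    rw [← cfc_mul (fun t : ℝ => t) (fun t : ℝ => t) a continuous_id.continuousOn continuous_id.continuousOn,
      ← cfc_mul (g n) (fun t : ℝ => t * t) a hg.continuousOn (by fun_prop),
      ← cfc_mul (fun t => g n t * (t * t)) (g n) a (by fun_prop) hg.continuousOn]
  have e2 : star (y * cfc (g n) a) * (y * cfc (g n) a) - a =
      cfc (fun t : ℝ => g n t * (t * t) * g n t - t) a := by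
    rw [cfc_sub (fun t : ℝ => g n t * (t * t) * g n t) (fun t : ℝ => t) a (by fun_prop) (by fun_prop),
      e1, hid, star_mul, hsa, ← hy]
    simp only [mul_assoc]
  rw [e2]
  refine norm_cfc_le (e_pos n).le fun t ht => ?_
  have ht0 := ha.nn t ht
  have h1 : g n t * (t * t) * g n t - t = -(e n * (t * (t + e n)⁻¹)) := by
    have h2 : g n t * (t * t) * g n t = (g n t * g n t) * (t * t) := by ring
    rw [h2, gg, r, abs_of_nonneg ht0]
    have h3 : t + e n ≠ 0 := by have := e_pos n; linarith
    field_simp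
    ring
  have h4 : t * (t + e n)⁻¹ ≤ 1 := by
    rw [← div_eq_mul_inv, div_le_one (by have := e_pos n; linarith)]
    have := e_pos n; linarith
  have h5 : 0 ≤ t * (t + e n)⁻¹ := mul_nonneg ht0 (inv_nonneg.2 (by have := e_pos n; linarith))
  rw [h1, Real.norm_eq_abs, abs_neg, abs_of_nonneg (mul_nonneg (e_pos n).le h5)]
  calc e n * (t * (t + e n)⁻¹) ≤ e n * 1 := mul_le_mul_of_nonneg_left h4 (e_pos n).le
    _ = e n := mul_one _

theorem inv_mul_one {a : B} (ha : NN a) (n : ℕ) :
    cfc (r n) a * (a + algebraMap ℝ B (e n)) = 1 ∧ (a + algebraMap ℝ B (e n)) * cfc (r n) a = 1 := by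
  have hid : a + algebraMap ℝ B (e n) = cfc (fun t : ℝ => t + e n) a := by
    rw [cfc_add_const (e n) (fun t : ℝ => t) a (by fun_prop) ha.sa, cfc_id' ℝ a ha.sa]
  have h1 : ∀ t ∈ spectrum ℝ a, r n t * (t + e n) = 1 := by
    intro t ht
    have ht0 := ha.nn t ht
    rw [r, abs_of_nonneg ht0]
    have h3 : t + e n ≠ 0 := by have := e_pos n; linarith
    field_simp
  have hr := r_cont n
  constructor
  · rw [hid, ← cfc_mul (r n) (fun t : ℝ => t + e n) a hr.continuousOn (by fun_prop),
      cfc_congr (g := fun _ : ℝ => (1 : ℝ)) (fun t ht => h1 t ht), cfc_const_one ℝ a ha.sa]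
  · rw [hid, ← cfc_mul (fun t : ℝ => t + e n) (r n) a (by fun_prop) hr.continuousOn,
      cfc_congr (g := fun _ : ℝ => (1 : ℝ)) (fun t ht => by rw [mul_comm]; exact h1 t ht),
      cfc_const_one ℝ a ha.sa]

theorem intertw {a b y : B} (ha : NN a) (hb : NN b) (h : b * y = y * a) (n : ℕ) :
    cfc (r n) b * y = y * cfc (r n) a := by
  have h1 := (inv_mul_one hb n).1
  have h2 := (inv_mul_one ha n).2
  set A := algebraMap ℝ B (e n) with hA
  have h3 : (b + A) * y = y * (a + A) := by
    rw [add_mul, mul_add, h, hA, Algebra.commutes]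
  calc cfc (r n) b * y = cfc (r n) b * y * ((a + A) * cfc (r n) a) := by rw [h2, mul_one]
    _ = cfc (r n) b * (y * (a + A)) * cfc (r n) a := by simp only [mul_assoc]
    _ = (cfc (r n) b * (b + A)) * y * cfc (r n) a := by rw [← h3]; simp only [mul_assoc]
    _ = y * cfc (r n) a := by rw [h1, one_mul]

theorem t_OZ2 : S_OZ2 := by
  intro B _ ι K u hu
  have key : ∀ i, ∃ (x : K i → B) (h : B), (∀ k l, u i k l = x k * star (x l)) ∧
      (∀ k, star (x k) * x k = h) ∧ Pos h ∧ Pos (1 - h) ∧
      ∀ k, ∃ (s : K i) (Y : ℕ → B), Tendsto (fun n => u i k s * Y n) atTop (𝓝 (x k)) := by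
    intro i
    by_cases hne : Nonempty (K i)
    · obtain ⟨o⟩ := hne
      have ha : NN (u i o o) := nn_of_pos (hu.pos i o)
      have hy : ∀ k, star (u i k o) * u i k o = u i o o * u i o o := fun k => by
        rw [hu.st, hu.mul]
      choose x hx using fun k => exists_lim ha (hy k)
      refine ⟨x, u i o o, ?_, ?_, hu.pos i o, hu.le i o, fun k => ⟨o, _, hx k⟩⟩
      · intro k l
        have hb : NN (u i k k) := nn_of_pos (hu.pos i k)
        have t1 : Tendsto (fun n => (u i k o * cfc (g n) (u i o o)) *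
            star (u i l o * cfc (g n) (u i o o))) atTop (𝓝 (x k * star (x l))) :=
          (hx k).mul ((continuous_star.tendsto _).comp (hx l))
        have t2 : Tendsto (fun n => (u i k o * cfc (g n) (u i o o)) *
            star (u i l o * cfc (g n) (u i o o))) atTop (𝓝 (u i k l)) := by
          refine tendsto_of_norm_le fun n => ?_
          have hsa : star (cfc (g n) (u i o o)) = cfc (g n) (u i o o) :=
            (cfc_predicate (g n) (u i o o) : IsSelfAdjoint (cfc (g n) (u i o o))).star_eq
          have hg := g_cont n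
          have hr := r_cont n
          have e1 : (u i k o * cfc (g n) (u i o o)) * star (u i l o * cfc (g n) (u i o o)) =
              (u i k o * cfc (r n) (u i o o)) * u i o l := by
            have : cfc (r n) (u i o o) = cfc (g n) (u i o o) * cfc (g n) (u i o o) := by
              rw [← cfc_mul (g n) (g n) (u i o o) hg.continuousOn hg.continuousOn]
              congr 1
              funext t
              exact (gg n t).symm
            rw [star_mul, hsa, hu.st, this]
            simp only [mul_assoc]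
          have e2 : cfc (r n) (u i k k) * u i k k =
              1 - cfc (fun t => e n * r n t) (u i k k) := by
            have hid : cfc (fun t : ℝ => t) (u i k k) = u i k k := cfc_id' ℝ _ hb.sa
            have h1 : cfc (r n) (u i k k) * u i k k = cfc (fun t => r n t * t) (u i k k) := by
              rw [cfc_mul (r n) (fun t : ℝ => t) (u i k k) hr.continuousOn (by fun_prop), hid]
            have h2 : (1 : B) - cfc (fun t => e n * r n t) (u i k k) =
                cfc (fun t => 1 - e n * r n t) (u i k k) := by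
              rw [cfc_sub (fun _ : ℝ => (1 : ℝ)) (fun t => e n * r n t) (u i k k) (by fun_prop)
                (by fun_prop), cfc_const_one ℝ _ hb.sa]
            rw [h1, h2]
            refine cfc_congr fun t ht => ?_
            have ht0 := hb.nn t ht
            have h3 : t + e n ≠ 0 := by have := e_pos n; linarith
            simp only [r, abs_of_nonneg ht0]
            field_simp
            ring
          have e3 : (u i k o * cfc (g n) (u i o o)) * star (u i l o * cfc (g n) (u i o o)) - u i k l =
              - (cfc (fun t => e n * r n t) (u i k k) * u i k l) := by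
            rw [e1, ← intertw ha hb (hu.comm i k o) n, mul_assoc, hu.mul, ← mul_assoc, e2]
            noncomm_ring
          have hsb : star (cfc (fun t => e n * r n t) (u i k k)) = cfc (fun t => e n * r n t) (u i k k) :=
            (cfc_predicate (fun t => e n * r n t) (u i k k) : IsSelfAdjoint _).star_eq
          rw [e3, norm_neg, ← norm_star, star_mul, hsb, hu.st]
          refine norm_mul_cfc hb ?_ (by fun_prop) (e_pos n).le fun t ht => ?_
          · rw [hu.st, hu.mul]
          · have ht0 := hb.nn t ht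
            have hp : 0 < t + e n := by have := e_pos n; linarith
            have h4 : t * (t + e n)⁻¹ ≤ 1 := by
              rw [← div_eq_mul_inv, div_le_one hp]
              have := e_pos n; linarith
            have h5 : 0 ≤ t * (t + e n)⁻¹ := mul_nonneg ht0 (inv_nonneg.2 hp.le)
            have h6 : t * (e n * r n t) = e n * (t * (t + e n)⁻¹) := by
              rw [r, abs_of_nonneg ht0]; ring
            rw [h6, abs_of_nonneg (mul_nonneg (e_pos n).le h5)]
            calc e n * (t * (t + e n)⁻¹) ≤ e n * 1 := mul_le_mul_of_nonneg_left h4 (e_pos n).le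
              _ = e n := mul_one _
        exact tendsto_nhds_unique t2 t1
      · intro k
        have t1 : Tendsto (fun n => star (u i k o * cfc (g n) (u i o o)) *
            (u i k o * cfc (g n) (u i o o))) atTop (𝓝 (star (x k) * x k)) :=
          ((continuous_star.tendsto _).comp (hx k)).mul (hx k)
        exact tendsto_nhds_unique t1 (sq_tendsto ha (hy k))
    · refine ⟨fun k => absurd ⟨k⟩ hne, 0, fun k => absurd ⟨k⟩ hne, fun k => absurd ⟨k⟩ hne,
        ⟨0, by simp⟩, ⟨1, by simp⟩, fun k => absurd ⟨k⟩ hne⟩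
  choose x h h1 h2 h3 h4 h5 using key
  refine ⟨x, h, h1, ?_, h2, h3, h4⟩
  intro i k i' k' hne
  obtain ⟨s, Y, hY⟩ := h5 i k
  obtain ⟨s', Y', hY'⟩ := h5 i' k'
  have t1 : Tendsto (fun n => star (u i k s * Y n) * (u i' k' s' * Y' n)) atTop
      (𝓝 (star (x i k) * x i' k')) :=
    ((continuous_star.tendsto _).comp hY).mul hY'
  have t2 : (fun n => star (u i k s * Y n) * (u i' k' s' * Y' n)) = fun _ => (0 : B) := by
    funext n
    have h6 := hu.mis i s k i' k' s' hne
    calc star (u i k s * Y n) * (u i' k' s' * Y' n) = star (Y n) * (u i s k * u i' k' s') * Y' n := by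
          rw [star_mul, hu.st]; simp only [mul_assoc]
      _ = 0 := by rw [h6]; simp
  rw [t2] at t1
  exact tendsto_nhds_unique t1 tendsto_const_nhds

end Run7.h890.CE
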